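import Mathlib

set_option autoImplicit false

namespace Pool.Agent.Results.MP_e714e3_pr.Convex

open Filter Topology Set
open scoped ContDiff

/-- unnormalised stationary weights of the birth-death chain with birth rate x, death rates d -/
noncomputable def w (d : ℕ → ℝ) (x : ℝ) (i : ℕ) : ℝ := ∏ j ∈ Finset.range i, x / d (j + 1)

/-- stationary law -/
noncomputable def st (d : ℕ → ℝ) (x : ℝ) (i : ℕ) : ℝ := w d x i / ∑' k, w d x k

/-- total abandonment rate with i jobs: DES (true) or DBS (false) -/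
noncomputable def L (des : Bool) (m : ℕ) (θ : ℝ) (i : ℕ) : ℝ :=
  if des then (i : ℝ) * θ else max ((i : ℝ) - m) 0 * θ

/-- death rates -/
noncomputable def dr (des : Bool) (m : ℕ) (μ θ : ℝ) (i : ℕ) : ℝ :=
  ((min i m : ℕ) : ℝ) * μ + L des m θ i

/-- mean abandonment rate -/
noncomputable def ell (des : Bool) (m : ℕ) (μ θ : ℝ) (x : ℝ) : ℝ :=
  ∑' i, st (dr des m μ θ) x i * L des m θ i

noncomputable def E (d : ℕ → ℝ) (g : ℕ → ℝ) (x : ℝ) : ℝ := ∑' i, st d x i * g i

structure Hd (d : ℕ → ℝ) (e : ℝ) : Prop where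
  he : 0 < e
  d0 : d 0 = 0
  hd : ∀ i, d i + e ≤ d (i + 1)

section
variable {d : ℕ → ℝ} {e : ℝ} (H : Hd d e)
include H

lemma dlow (i : ℕ) : e * i ≤ d i := by
  induction i with
  | zero => simp [H.d0]
  | succ i ih => have := H.hd i; push_cast; linarith

lemma dpos (i : ℕ) : 0 < d (i + 1) :=
  lt_of_lt_of_le (mul_pos H.he (by positivity)) (dlow H (i + 1))

lemma dmono : Monotone d := monotone_nat_of_le_succ fun i => by
  have := H.hd i; have := H.he; linarith

lemma dnn (i : ℕ) : 0 ≤ d i := H.d0 ▸ dmono H (Nat.zero_le i)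

lemma wpos {x : ℝ} (hx : 0 < x) (i : ℕ) : 0 < w d x i :=
  Finset.prod_pos fun j _ => div_pos hx (dpos H j)

lemma wsucc (x : ℝ) (i : ℕ) : w d x (i + 1) * d (i + 1) = x * w d x i := by
  have := dpos H i
  rw [w, Finset.prod_range_succ, ← w]
  field_simp

omit H in
lemma weq (x : ℝ) (i : ℕ) : w d x i = w d 1 i * x ^ i := by
  induction i with
  | zero => simp [w]
  | succ i ih =>
    rw [w, w, Finset.prod_range_succ, Finset.prod_range_succ, ← w, ← w, ih]
    ring

lemma wle {x : ℝ} (hx : 0 < x) (i : ℕ) : w d x i ≤ (x / e) ^ i / i.factorial := by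
  induction i with
  | zero => simp [w]
  | succ i ih =>
    have he := H.he
    have h1 : x / d (i + 1) ≤ x / (e * ((i + 1 : ℕ) : ℝ)) :=
      div_le_div_of_nonneg_left hx.le (by positivity) (dlow H _)
    rw [w, Finset.prod_range_succ, ← w]
    refine (mul_le_mul ih h1 (div_pos hx (dpos H i)).le (by positivity)).trans (le_of_eq ?_)
    rw [Nat.factorial_succ, pow_succ]
    push_cast
    field_simp

lemma sw {x : ℝ} (hx : 0 < x) : Summable (w d x) :=
  Summable.of_nonneg_of_le (fun i => (wpos H hx i).le) (wle H hx)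
    (Real.summable_pow_div_factorial _)

lemma Zpos {x : ℝ} (hx : 0 < x) : 0 < ∑' k, w d x k :=
  (sw H hx).tsum_pos (fun i => (wpos H hx i).le) 0 (wpos H hx 0)

lemma spos {x : ℝ} (hx : 0 < x) (i : ℕ) : 0 < st d x i := div_pos (wpos H hx i) (Zpos H hx)

lemma ssucc (x : ℝ) (i : ℕ) : st d x (i + 1) * d (i + 1) = x * st d x i := by
  rw [st, st, div_mul_eq_mul_div, wsucc H, mul_div_assoc]

lemma hs1 {x : ℝ} (hx : 0 < x) : HasSum (st d x) 1 := by
  have := (sw H hx).hasSum.div_const (∑' k, w d x k)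
  rwa [div_self (Zpos H hx).ne'] at this

lemma hsg {x : ℝ} (hx : 0 < x) {g : ℕ → ℝ} {M : ℝ} (hg : ∀ i, |g i| ≤ M) :
    HasSum (fun i => st d x i * g i) (E d g x) := by
  refine Summable.hasSum (Summable.of_norm_bounded ((hs1 H hx).summable.mul_right M) fun i => ?_)
  rw [norm_mul, Real.norm_eq_abs, Real.norm_eq_abs, abs_of_pos (spos H hx i)]
  exact mul_le_mul_of_nonneg_left (hg i) (spos H hx i).le

lemma hshift {x : ℝ} (hx : 0 < x) {g : ℕ → ℝ} {M : ℝ} (hg : ∀ i, |g i| ≤ M) :
    HasSum (fun i => st d x i * (d i * g (i - 1))) (x * E d g x) := by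
  rw [← hasSum_nat_add_iff' 1]
  simp only [Finset.range_one, Finset.sum_singleton, H.d0, zero_mul, mul_zero, sub_zero,
    Nat.add_sub_cancel]
  have := (hsg H hx hg).mul_left x
  refine this.congr' ?_ |>.trans le_rfl
  exact Eventually.of_forall fun s => Finset.sum_congr rfl fun i _ => by
    simp only []
    rw [← mul_assoc, ← mul_assoc, ssucc H]

lemma entire {g : ℕ → ℝ} {M : ℝ} (hg : ∀ i, |g i| ≤ M) :
    ContDiff ℝ ∞ fun x : ℝ => ∑' i, w d x i * g i := by
  set p := FormalMultilinearSeries.ofScalars ℝ fun i => w d 1 i * g i with hp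
  have hr : p.radius = ⊤ := by
    refine p.radius_eq_top_of_summable_norm fun r => ?_
    have hx : (0 : ℝ) < r + 1 := by positivity
    refine Summable.of_nonneg_of_le (fun i => by positivity) (fun i => ?_)
      ((sw H hx).mul_right M)
    rw [hp, FormalMultilinearSeries.ofScalars_norm, norm_mul, Real.norm_eq_abs, Real.norm_eq_abs,
      abs_of_pos (wpos H one_pos i), weq (r + 1 : ℝ), mul_right_comm]
    have := wpos H one_pos i
    have h0 : (0 : ℝ) ≤ r := r.2
    have := hg i
    gcongr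
    linarith
  have h := p.hasFPowerSeriesOnBall (by rw [hr]; simp)
  have h2 : AnalyticOnNhd ℝ p.sum univ := by
    have := h.analyticOnNhd
    rwa [hr, Metric.eball_top_eq_univ] at this
  have h3 : p.sum = fun x : ℝ => ∑' i, w d x i * g i := by
    funext x
    have := FormalMultilinearSeries.ofScalars_sum_eq (fun i => w d 1 i * g i) x
    refine this.trans (tsum_congr fun i => ?_)
    rw [weq x, smul_eq_mul]
    ring
  rw [← h3]
  exact h2.contDiff

lemma smooth {g : ℕ → ℝ} {M : ℝ} (hg : ∀ i, |g i| ≤ M) : ContDiffOn ℝ ∞ (E d g) (Ioi 0) := by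
  have h1 := entire H hg
  have h2 := entire H (g := fun _ => 1) (M := 1) (by simp)
  simp only [mul_one] at h2
  refine (h1.contDiffOn.div h2.contDiffOn fun x hx => (Zpos H hx).ne').congr fun x _ => ?_
  simp only [E, st, Pi.div_apply]
  rw [← tsum_div_const]
  exact tsum_congr fun i => by ring

lemma cross {x y : ℝ} (hx : 0 < x) (hxy : x < y) {g : ℕ → ℝ} (ha : Antitone g)
    (h0 : 0 < g 0) (hl : Tendsto g atTop (𝓝 0)) : E d g y < E d g x := by
  have hy := hx.trans hxy
  have gn : ∀ i, 0 ≤ g i := ha.le_of_tendsto hl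
  have gb : ∀ i, |g i| ≤ g 0 := fun i => by
    rw [abs_of_nonneg (gn i)]; exact ha (Nat.zero_le i)
  have Zx := Zpos H hx
  have Zy := Zpos H hy
  have hZ : ∑' k, w d x k < ∑' k, w d y k := by
    refine (sw H hx).tsum_lt_tsum (i := 1) (fun i => ?_) ?_ (sw H hy)
    · rw [weq x, weq y]
      have := wpos H one_pos i
      gcongr
    · rw [weq x, weq y]
      have := wpos H one_pos 1
      gcongr
  set t : ℕ → ℝ := fun i => (∑' k, w d x k) / (∑' k, w d y k) * (y / x) ^ i with ht
  have hρ : 1 < y / x := (one_lt_div hx).2 hxy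
  have hC : 0 < (∑' k, w d x k) / (∑' k, w d y k) := div_pos Zx Zy
  have tm : StrictMono t := fun i j hij =>
    mul_lt_mul_of_pos_left (pow_lt_pow_right₀ hρ hij) hC
  have t0 : t 0 < 1 := by simpa [ht] using (div_lt_one Zy).2 hZ
  have hst : ∀ i, st d y i = st d x i * t i := fun i => by
    rw [st, st, ht, weq x, weq y]
    simp only [div_pow]
    field_simp
  have hex : ∃ k, 1 < t (k + 1) := by
    obtain ⟨k, hk⟩ := (((tendsto_pow_atTop_atTop_of_one_lt hρ).const_mul_atTop hC).eventually
      (eventually_gt_atTop 1)).exists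
    exact ⟨k, hk.trans (tm (Nat.lt_succ_self k))⟩
  classical
  set k := Nat.find hex
  have h1 : ∀ i ≤ k, t i ≤ 1 := fun i hi => by
    rcases i with _ | i
    · exact t0.le
    · exact not_lt.1 (Nat.find_min hex hi)
  have h2 : ∀ i, k < i → 1 < t i := fun i hi => (Nat.find_spec hex).trans_le (tm.monotone hi)
  have hS : HasSum (fun i => st d x i * ((1 - t i) * (g i - g k))) (E d g x - E d g y) := by
    have := ((hsg H hx gb).sub ((hs1 H hx).mul_right (g k))).sub
      ((hsg H hy gb).sub ((hs1 H hy).mul_right (g k)))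
    rw [show E d g x - 1 * g k - (E d g y - 1 * g k) = E d g x - E d g y by ring] at this
    refine this.congr' ?_ |>.trans le_rfl
    exact Eventually.of_forall fun s => Finset.sum_congr rfl fun i _ => by
      simp only []
      rw [hst]
      ring
  have hn : ∀ i, 0 ≤ st d x i * ((1 - t i) * (g i - g k)) := fun i => by
    refine mul_nonneg (spos H hx i).le ?_
    rcases le_or_gt i k with h | h
    · exact mul_nonneg (sub_nonneg.2 (h1 i h)) (sub_nonneg.2 (ha h))
    · exact mul_nonneg_of_nonpos_of_nonpos (sub_nonpos.2 (h2 i h).le) (sub_nonpos.2 (ha h.le))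
  have hp : ∃ i, 0 < (1 - t i) * (g i - g k) := by
    rcases (gn k).eq_or_lt with h | h
    · exact ⟨0, mul_pos (sub_pos.2 t0) (by linarith)⟩
    · obtain ⟨i, hi, hi'⟩ := ((hl.eventually (gt_mem_nhds h)).and (eventually_gt_atTop k)).exists
      exact ⟨i, mul_pos_of_neg_of_neg (sub_neg.2 (h2 i hi')) (sub_neg.2 hi)⟩
  obtain ⟨i, hi⟩ := hp
  have := hS.summable.tsum_pos hn i (mul_pos (spos H hx i) hi)
  rw [hS.tsum_eq] at this
  linarith

lemma exb {x : ℝ} (hx : 0 < x) {f : ℕ → ℝ} {M : ℝ} (hf : ∀ i, |f i| ≤ M) :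
    ∃ b : ℕ → ℝ, Tendsto b atTop (𝓝 0) ∧ ∀ i, x * b i - d i * b (i - 1) = E d f x - f i := by
  set T := E d f x with hT
  have hg : ∀ i, |f i - T| ≤ M + |T| := fun i => (abs_sub _ _).trans (by linarith [hf i])
  have hs : HasSum (fun i => st d x i * (f i - T)) 0 := by
    have := (hsg H hx hf).sub ((hs1 H hx).mul_right T)
    rw [one_mul, ← hT, sub_self] at this
    simpa only [mul_sub] using this
  set S : ℕ → ℝ := fun i => ∑' k, st d x (k + i) * (f (k + i) - T) with hS
  have hsm : ∀ i, Summable fun k => st d x (k + i) * (f (k + i) - T) := fun i =>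
    (summable_nat_add_iff (f := fun i => st d x i * (f i - T)) i).2 hs.summable
  have S0 : S 0 = 0 := by simpa [hS] using hs.tsum_eq
  have S1 : ∀ i, S i = st d x i * (f i - T) + S (i + 1) := fun i => by
    simp only [hS]
    rw [(hsm i).tsum_eq_zero_add]
    simp only [zero_add, add_assoc, add_comm 1 i]
  have Z := Zpos H hx
  have hw : ∀ i k, st d x (k + i) ≤ st d x i * w d x k := fun i k => by
    rw [st, st, div_mul_eq_mul_div, add_comm, w, Finset.prod_range_add, ← w]
    have := wpos H hx i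
    gcongr
    refine Finset.prod_le_prod (fun j _ => (div_pos hx (dpos H _)).le) fun j _ => ?_
    exact div_le_div_of_nonneg_left hx.le (dpos H j) (dmono H (by omega))
  have hb : ∀ i, |S i| ≤ st d x i * ((M + |T|) * ∑' k, w d x k) := fun i => by
    have := tsum_of_norm_bounded (((sw H hx).hasSum.mul_left (M + |T|)).mul_left (st d x i))
      (f := fun k => st d x (k + i) * (f (k + i) - T)) fun k => by
        rw [norm_mul, Real.norm_eq_abs, Real.norm_eq_abs, abs_of_pos (spos H hx _)]
        refine (mul_le_mul (hw i k) (hg _) (abs_nonneg _)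
          (mul_pos (spos H hx i) (wpos H hx k)).le).trans (le_of_eq (by ring))
    exact this
  refine ⟨fun i => S (i + 1) / (x * st d x i), ?_, fun i => ?_⟩
  · have hd : Tendsto (fun i => d (i + 1)) atTop atTop :=
      tendsto_atTop_mono (fun i => (dlow H i).trans (dmono H (Nat.le_succ i)))
        (tendsto_natCast_atTop_atTop.const_mul_atTop H.he)
    refine squeeze_zero_norm (fun i => ?_)
      (hd.const_div_atTop ((M + |T|) * ∑' k, w d x k))
    have h1 := spos H hx (i + 1)
    have h2 := dpos H i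
    rw [← ssucc H, norm_div, Real.norm_eq_abs, Real.norm_eq_abs, abs_of_pos (mul_pos h1 h2),
      div_le_div_iff₀ (mul_pos h1 h2) h2]
    have := mul_le_mul_of_nonneg_right (hb (i + 1)) h2.le
    linarith
  · have h1 := spos H hx i
    have h3 := S1 i
    rcases i with _ | i
    · rw [S0] at h3
      simp only [H.d0, zero_mul, sub_zero]
      field_simp
      linarith
    · have h2 := dpos H i
      simp only [Nat.add_sub_cancel]
      rw [← ssucc H x i]
      field_simp
      linarith

end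

lemma exmin {g : ℕ → ℝ} (hl : Tendsto g atTop (𝓝 0)) (P : Set ℕ) {i : ℕ} (hi : i ∈ P)
    (h0 : g i < 0) : ∃ p ∈ P, ∀ j ∈ P, g p ≤ g j := by
  obtain ⟨N, hN⟩ := eventually_atTop.1 (hl.eventually (lt_mem_nhds h0))
  have hf : {j | j ∈ P ∧ g j ≤ g i}.Finite := (Set.finite_lt_nat N).subset fun j hj => by
    by_contra h
    exact absurd (hN j (not_lt.1 h)) (not_lt.2 hj.2)
  obtain ⟨p, hp, hm⟩ := Set.exists_min_image _ g hf ⟨i, hi, le_rfl⟩
  refine ⟨p, hp.1, fun j hj => ?_⟩
  rcases le_total (g j) (g i) with h | h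
  · exact hm j ⟨hj, h⟩
  · exact hp.2.trans h

lemma shape {d f c b : ℕ → ℝ} {e x T : ℝ} (H : Hd d e) (hx : 0 < x) (hc : Antitone c)
    (c0 : ∀ i, 0 ≤ c i) (hf : ∀ i, f (i + 1) - f i = c i * (d (i + 1) - d i))
    (hl : Tendsto b atTop (𝓝 0)) (hb : ∀ i, x * b i - d i * b (i - 1) = T - f i) :
    Antitone b := by
  have hk : ∀ i, 0 < d (i + 1) - d i := fun i => by have := H.hd i; have := H.he; linarith
  have eq : ∀ i, (d (i + 1) - d i) * (c i - b i) =
      x * (b i - b (i + 1)) + d i * (b i - b (i - 1)) := fun i => by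
    have h1 := hb i
    have h2 := hb (i + 1)
    rw [Nat.add_sub_cancel] at h2
    linarith [hf i]
  have lo : ∀ i, b i ≤ b (i + 1) → b i ≤ b (i - 1) → c i ≤ b i := fun i h1 h2 => by
    have := eq i
    have h3 := mul_nonpos_of_nonneg_of_nonpos hx.le (sub_nonpos.2 h1)
    have h4 := mul_nonpos_of_nonneg_of_nonpos (dnn H i) (sub_nonpos.2 h2)
    by_contra h
    have := mul_pos (hk i) (sub_pos.2 (not_le.1 h))
    linarith
  have hi : ∀ i, b (i + 1) ≤ b i → b (i - 1) ≤ b i → b i ≤ c i := fun i h1 h2 => by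
    have := eq i
    have h3 := mul_nonneg hx.le (sub_nonneg.2 h1)
    have h4 := mul_nonneg (dnn H i) (sub_nonneg.2 h2)
    by_contra h
    have := mul_neg_of_pos_of_neg (hk i) (sub_neg.2 (not_le.1 h))
    linarith
  have nn : ∀ i, 0 ≤ b i := fun i => by
    by_contra h
    obtain ⟨p, -, hp⟩ := exmin hl univ (mem_univ i) (not_le.1 h)
    have := lo p (hp _ trivial) (hp _ trivial)
    linarith [hp i trivial, c0 p]
  refine antitone_nat_of_succ_le fun i => ?_
  by_contra h
  have h := not_le.1 h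
  obtain ⟨p, hp, hm⟩ := Set.exists_min_image _ b (Set.finite_le_nat i) ⟨i, show i ≤ i from le_rfl⟩
  have hp : p ≤ i := hp
  obtain ⟨q, hq, hM⟩ := exmin (g := fun j => -b j) (by simpa using hl.neg) {j | i + 1 ≤ j}
    (i := i + 1) (show i + 1 ≤ i + 1 from le_rfl) (by linarith [nn i])
  have hq : i + 1 ≤ q := hq
  have hM : ∀ j, i + 1 ≤ j → b j ≤ b q := fun j hj => neg_le_neg_iff.1 (hM j hj)
  have h1 : b p ≤ b i := hm i (show i ≤ i from le_rfl)
  have h2 : b (i + 1) ≤ b q := hM _ le_rfl
  have h3 : c p ≤ b p := by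
    refine lo p ?_ (hm _ (show p - 1 ≤ i by omega))
    rcases hp.eq_or_lt with rfl | hp
    · exact h.le
    · exact hm _ (show p + 1 ≤ i from hp)
  have h4 : b q ≤ c q := by
    refine hi q (hM _ (by omega)) ?_
    rcases hq.eq_or_lt with rfl | hq
    · exact h.le
    · exact hM _ (by omega)
  have := hc (show p ≤ q by omega)
  linarith

theorem main {d f c : ℕ → ℝ} {e M : ℝ} (H : Hd d e) (hc : Antitone c)
    (c0 : ∀ i, 0 ≤ c i) (hf : ∀ i, f (i + 1) - f i = c i * (d (i + 1) - d i))
    (f0 : f 0 = 0) (fn : ∀ i, 0 ≤ f i) (fM : ∀ i, f i ≤ M) (f1 : 0 < f 1) (fd : ∀ i, f i ≤ d i)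
    (k : ℕ) (fk : f k < d k) (l : ℝ → ℝ) (hl : ∀ x, l x = ∑' i, st d x i * (d i - f i)) :
    (∀ x, 0 < x → Summable fun i => st d x i * (d i - f i)) ∧
    StrictMonoOn l (Ioi 0) ∧ StrictConvexOn ℝ (Ioi 0) l ∧ ContDiffOn ℝ ∞ l (Ioi 0) ∧
      ContDiffOn ℝ ∞ (deriv l) (Ioi 0) ∧ StrictMonoOn (deriv l) (Ioi 0) ∧
      Tendsto (deriv l) atTop (𝓝 1) := by
  have fa : ∀ i, |f i| ≤ M := fun i => by rw [abs_of_nonneg (fn i)]; exact fM i
  have hs : ∀ x, 0 < x → HasSum (fun i => st d x i * (d i - f i)) (x - E d f x) := fun x hx => by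
    have h1 := hshift H hx (g := fun _ => 1) (M := 1) (by simp)
    have h2 : E d (fun _ => 1) x = 1 := by simpa [E] using (hs1 H hx).tsum_eq
    rw [h2] at h1
    simpa only [mul_one, mul_sub] using h1.sub (hsg H hx fa)
  have le : ∀ x, 0 < x → l x = x - E d f x := fun x hx => by rw [hl, (hs x hx).tsum_eq]
  have lp : ∀ x, 0 < x → E d f x < x := fun x hx => by
    have := (hs x hx).summable.tsum_pos
      (fun i => mul_nonneg (spos H hx i).le (sub_nonneg.2 (fd i))) k
      (mul_pos (spos H hx k) (sub_pos.2 fk))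
    rwa [(hs x hx).tsum_eq, sub_pos] at this
  have Tp : ∀ x, 0 < x → 0 < E d f x := fun x hx => (hsg H hx fa).summable.tsum_pos
    (fun i => mul_nonneg (spos H hx i).le (fn i)) 1 (mul_pos (spos H hx 1) f1)
  have EM : ∀ x, 0 < x → ∀ (g : ℕ → ℝ) (K : ℝ), (∀ i, 0 ≤ g i) → (∀ i, g i ≤ K) →
      0 ≤ E d g x ∧ E d g x ≤ K := fun x hx g K h1 h2 => by
    refine ⟨tsum_nonneg fun i => mul_nonneg (spos H hx i).le (h1 i), ?_⟩
    have := hasSum_le (fun i => mul_le_mul_of_nonneg_left (h2 i) (spos H hx i).le)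
      (hsg H hx (M := K) fun i => by rw [abs_of_nonneg (h1 i)]; exact h2 i)
      ((hs1 H hx).mul_right K)
    rwa [one_mul] at this
  have key : ∀ x, 0 < x → ∃ b : ℕ → ℝ, Antitone b ∧ Tendsto b atTop (𝓝 0) ∧
      b 0 = E d f x / x ∧ ∀ y, 0 < y → l y - l x = (y - x) * (1 - E d b y) := fun x hx => by
    obtain ⟨b, h1, h2⟩ := exb H hx fa
    have h3 := shape H hx hc c0 hf h1 h2
    refine ⟨b, h3, h1, ?_, fun y hy => ?_⟩
    · have := h2 0
      rw [H.d0, f0] at this
      field_simp
      linarith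
    · have gb : ∀ i, |b i| ≤ b 0 := fun i => by
        rw [abs_of_nonneg (h3.le_of_tendsto h1 i)]; exact h3 (Nat.zero_le i)
      have a1 := ((hsg H hy gb).mul_left x).sub (hshift H hy gb)
      have a2 := ((hs1 H hy).mul_right (E d f x)).sub (hsg H hy fa)
      have : (fun i => x * (st d y i * b i) - st d y i * (d i * b (i - 1))) =
          fun i => st d y i * E d f x - st d y i * f i := funext fun i => by
        rw [← mul_sub, ← h2 i]; ring
      rw [this] at a1
      have := a1.unique a2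
      rw [le x hx, le y hy]
      linarith
  have sl : ∀ x y, 0 < x → x < y → 1 - E d f x / x ≤ (l y - l x) / (y - x) ∧
      (l y - l x) / (y - x) ≤ 1 := fun x y hx hxy => by
    obtain ⟨b, h1, h2, h3, h4⟩ := key x hx
    have := EM y (hx.trans hxy) b (b 0) (h1.le_of_tendsto h2) fun i => h1 (Nat.zero_le i)
    rw [h4 y (hx.trans hxy), mul_div_cancel_left₀ _ (sub_pos.2 hxy).ne', ← h3]
    constructor <;> linarith [this.1, this.2]
  have sm : ContDiffOn ℝ ∞ l (Ioi 0) :=
    (contDiffOn_id.sub (smooth H fa)).congr fun x hx => le x hx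
  have df : ∀ x ∈ Ioi (0 : ℝ), DifferentiableAt ℝ l x := fun x hx =>
    (sm.differentiableOn (by simp)).differentiableAt (Ioi_mem_nhds hx)
  have cv : StrictConvexOn ℝ (Ioi 0) l := by
    refine strictConvexOn_of_slope_strict_mono_adjacent (convex_Ioi 0) ?_
    intro x y z hx hz hxy hyz
    have hy : 0 < y := lt_trans hx hxy
    obtain ⟨b, h1, h2, h3, h4⟩ := key y hy
    have := cross H hx (hxy.trans hyz) h1 (h3 ▸ div_pos (Tp y hy) hy) h2
    rw [h4 z hz, mul_div_cancel_left₀ _ (sub_pos.2 hyz).ne', ← neg_sub (l x), h4 x hx, ← neg_mul,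
      neg_sub, mul_div_cancel_left₀ _ (sub_pos.2 hxy).ne']
    linarith
  refine ⟨fun x hx => (hs x hx).summable, fun x hx y _ hxy => ?_, cv, sm,
    sm.deriv_of_isOpen isOpen_Ioi (by simp), cv.strictMonoOn_deriv df, ?_⟩
  · have h1 := (sl x y hx hxy).1
    have h2 := (div_lt_one hx).2 (lp x hx)
    have := (div_pos_iff_of_pos_right (sub_pos.2 hxy)).1 (show 0 < (l y - l x) / (y - x) by linarith)
    linarith
  · have h1 : Tendsto (fun x : ℝ => 1 - M / (x / 2)) atTop (𝓝 1) := by
      simpa using ((tendsto_id.atTop_div_const two_pos).const_div_atTop M).const_sub (1 : ℝ)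
    refine tendsto_of_tendsto_of_tendsto_of_le_of_le' h1 tendsto_const_nhds ?_ ?_
    · filter_upwards [eventually_gt_atTop 0] with x hx
      have hx2 : 0 < x / 2 := by positivity
      have h2 := cv.slope_lt_deriv hx2 hx (by linarith) (df x hx)
      rw [slope_def_field] at h2
      have h3 := (sl (x / 2) x hx2 (by linarith)).1
      have h4 := div_le_div_of_nonneg_right (EM _ hx2 f M fn fM).2 hx2.le
      linarith
    · filter_upwards [eventually_gt_atTop 0] with x hx
      have h2 := cv.deriv_lt_slope hx (show x + 1 ∈ Ioi (0 : ℝ) by simp; linarith) (by linarith)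
        (df x hx)
      rw [slope_def_field] at h2
      linarith [(sl x (x + 1) hx (by linarith)).2]

theorem result (m : ℕ) (hm : 1 ≤ m) (μ θ : ℝ) (hμ : 0 < μ) (hθ : 0 < θ) (des : Bool) :
    (∀ x, 0 < x → HasSum (st (dr des m μ θ) x) 1 ∧
      Summable fun i => st (dr des m μ θ) x i * L des m θ i) ∧
    StrictMonoOn (ell des m μ θ) (Ioi 0) ∧ StrictConvexOn ℝ (Ioi 0) (ell des m μ θ) ∧
      ContDiffOn ℝ ∞ (ell des m μ θ) (Ioi 0) ∧ ContDiffOn ℝ ∞ (deriv (ell des m μ θ)) (Ioi 0) ∧
      StrictMonoOn (deriv (ell des m μ θ)) (Ioi 0) ∧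
      Tendsto (deriv (ell des m μ θ)) atTop (𝓝 1) := by
  have hk : ∀ i, dr des m μ θ (i + 1) - dr des m μ θ i =
      if i < m then (if des then μ + θ else μ) else θ := fun i => by
    by_cases h : i < m
    · have h1 : ((i + 1 : ℕ) : ℝ) ≤ m := by exact_mod_cast h
      have h2 : (i : ℝ) ≤ m := by exact_mod_cast h.le
      rw [if_pos h, dr, dr, min_eq_left h.le, min_eq_left (show i + 1 ≤ m from h), L, L,
        max_eq_right (sub_nonpos.2 h1), max_eq_right (sub_nonpos.2 h2)]
      cases des <;> simp <;> ring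
    · have h := not_lt.1 h
      have h1 : (m : ℝ) ≤ ((i + 1 : ℕ) : ℝ) := by exact_mod_cast h.trans (Nat.le_succ i)
      have h2 : (m : ℝ) ≤ i := by exact_mod_cast h
      rw [if_neg (not_lt.2 h), dr, dr, min_eq_right h, min_eq_right (show m ≤ i + 1 by omega), L, L,
        max_eq_left (sub_nonneg.2 h1), max_eq_left (sub_nonneg.2 h2)]
      cases des <;> simp <;> ring
  have H : Hd (dr des m μ θ) (min μ θ) := by
    refine ⟨lt_min hμ hθ, by simp [dr, L], fun i => ?_⟩
    have := hk i
    have h1 := min_le_left μ θ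
    have h2 := min_le_right μ θ
    split_ifs at this <;> linarith
  have hL : ∀ i, L des m θ i = dr des m μ θ i - ((min i m : ℕ) : ℝ) * μ := fun i => by simp [dr]
  have hκ : 0 < (if des then μ + θ else μ) := by split_ifs <;> linarith
  have Ln : ∀ i, 0 ≤ L des m θ i := fun i => by rw [L]; split_ifs <;> positivity
  have := main (f := fun i => ((min i m : ℕ) : ℝ) * μ) (M := m * μ)
    (c := fun i => if i < m then μ / (if des then μ + θ else μ) else 0) H
    (fun i j hij => by
      by_cases h : j < m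
      · simp only [if_pos h, if_pos (hij.trans_lt h), le_refl]
      · simp only [if_neg h]
        split_ifs <;> positivity)
    (fun i => by split_ifs <;> positivity)
    (fun i => by
      rw [hk]
      by_cases h : i < m
      · rw [if_pos h, if_pos h, div_mul_cancel₀ _ hκ.ne', min_eq_left h.le,
          min_eq_left (show i + 1 ≤ m from h)]
        push_cast
        ring
      · rw [if_neg h, min_eq_right (not_lt.1 h), min_eq_right (show m ≤ i + 1 by omega)]
        ring)
    (by simp) (fun i => by positivity)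
    (fun i => mul_le_mul_of_nonneg_right (by exact_mod_cast min_le_right i m) hμ.le)
    (by simp only [min_eq_left hm]; simpa using hμ)
    (fun i => by have := Ln i; rw [hL] at this; linarith) (m + 1)
    (by
      have : 0 < L des m θ (m + 1) := by
        rw [L]
        split_ifs
        · positivity
        · simpa using hθ
      rw [hL] at this
      linarith)
    (ell des m μ θ) (fun x => by simp only [ell, hL])
  exact ⟨fun x hx => ⟨hs1 H hx, by simpa only [hL] using this.1 x hx⟩, this.2⟩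

end Pool.Agent.Results.MP_e714e3_pr.Convex
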